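import Mathlib

/-!
# Heath-Brown sets

From `{a_1, ..., a_k}` pass to `{N, N + a_1, ..., N + a_k}` with `N` a common multiple of the `a_i`.
-/

namespace PoolQ4

/-- For every `k` there are `0 < a_0 < ... < a_(k-1)` with `a_j - a_i = gcd(a_i, a_j)` for `i < j`. -/
theorem exists_heathBrown (k : ℕ) : ∃ a : Fin k → ℕ, (∀ i, 0 < a i) ∧ StrictMono a ∧
    ∀ i j, i < j → a j = a i + Nat.gcd (a i) (a j) := by
  induction k with
  | zero => exact ⟨Fin.elim0, fun i => i.elim0, fun i => i.elim0, fun i => i.elim0⟩
  | succ k ih =>
    obtain ⟨a, ha, hm, hg⟩ := ih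
    set N : ℕ := ∏ i, a i with hN
    have hdvd : ∀ i, a i ∣ N := fun i => Finset.dvd_prod_of_mem a (Finset.mem_univ i)
    have hNpos : 0 < N := Finset.prod_pos fun i _ => ha i
    refine ⟨Fin.cons N fun i => N + a i, ?_, ?_, ?_⟩
    · intro i
      refine Fin.cases ?_ (fun i => ?_) i
      · simpa using hNpos
      · simp only [Fin.cons_succ]
        omega
    · intro i j hij
      revert hij
      refine Fin.cases ?_ (fun i => ?_) i <;> refine Fin.cases ?_ (fun j => ?_) j
      · intro h; exact absurd h (lt_irrefl _)
      · intro _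
        simp only [Fin.cons_zero, Fin.cons_succ]
        have := ha j
        omega
      · intro h; exact absurd h (by simp)
      · intro h
        simp only [Fin.cons_succ]
        have := hm (Fin.succ_lt_succ_iff.1 h)
        omega
    · intro i j
      refine Fin.cases ?_ (fun i => ?_) i <;> refine Fin.cases ?_ (fun j => ?_) j
      · intro h; exact absurd h (lt_irrefl _)
      · intro _
        simp only [Fin.cons_zero, Fin.cons_succ]
        rw [Nat.gcd_self_add_right, Nat.gcd_eq_right (hdvd j)]
      · intro h; exact absurd h (by simp)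
      · intro h
        simp only [Fin.cons_succ]
        have h' : i < j := Fin.succ_lt_succ_iff.1 h
        have h1 := hg i j h'
        set d := Nat.gcd (a i) (a j) with hd
        have hd1 : d ∣ N + a i :=
          dvd_add ((Nat.gcd_dvd_left _ _).trans (hdvd i)) (Nat.gcd_dvd_left _ _)
        have h2 : N + a j = (N + a i) + d := by omega
        rw [h2, Nat.gcd_self_add_right, Nat.gcd_eq_right hd1]

end PoolQ4
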