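import Mathlib

/-!
# Local solvability

For a prime `p` the number of `z` mod `p^s` with `p^s ∣ a z + n` is at most `gcd(a, p^s) ≤ a`
(it is `0` or `gcd(a, p^s)`); so if `∑ i, a i < p^s` some class `z` mod `p^s` satisfies
`¬ p^s ∣ a i z + n` for all `i`. Combine the primes `p ∣ W` (`W` squarefree) by the Chinese
remainder theorem (e.g. induction over the set of primes, or `Nat.chineseRemainderOfFinset`).
-/

namespace PoolQ4

open Finset

/-- A congruence `a z + n ≡ 0` modulo `q` has at most `a` solutions in `[0, q)`. -/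
private theorem card_solutions (a q n : ℕ) (ha : 0 < a) (hq : 0 < q) :
    #{z ∈ range q | q ∣ a * z + n} ≤ a := by
  have h : #{z ∈ range q | q ∣ a * z + n} ≤ #(range a) := by
    refine card_le_card_of_injOn (fun z => (a * z + n) / q - (n + q - 1) / q) ?_ ?_
    · intro z hz
      rw [mem_coe, mem_filter, mem_range] at hz
      rw [mem_coe, mem_range]
      obtain ⟨hz1, m, hm⟩ := hz
      have h1 : (a * z + n) / q = m := by rw [hm]; exact Nat.mul_div_cancel_left m hq
      have h2 : n ≤ (n + q - 1) / q * q := by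
        have := Nat.div_add_mod (n + q - 1) q
        have h3 := Nat.mod_lt (n + q - 1) hq
        have h4 : (n + q - 1) / q * q = q * ((n + q - 1) / q) := mul_comm _ _
        omega
      set m0 := (n + q - 1) / q with hm0
      have h5 : q * m < q * (a + m0) := by
        have h6 : a * z < a * q := Nat.mul_lt_mul_of_pos_left hz1 ha
        calc q * m = a * z + n := hm.symm
          _ < a * q + m0 * q := by omega
          _ = q * (a + m0) := by ring
      have h7 : m < a + m0 := lt_of_mul_lt_mul_left h5 (Nat.zero_le _)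
      change (a * z + n) / q - m0 < a
      rw [h1]
      omega
    · intro z hz z' hz' hzz
      rw [mem_coe, mem_filter, mem_range] at hz hz'
      obtain ⟨hz1, m, hm⟩ := hz
      obtain ⟨hz1', m', hm'⟩ := hz'
      dsimp only at hzz
      have h1 : (a * z + n) / q = m := by rw [hm]; exact Nat.mul_div_cancel_left m hq
      have h1' : (a * z' + n) / q = m' := by rw [hm']; exact Nat.mul_div_cancel_left m' hq
      rw [h1, h1'] at hzz
      have h2 : (n + q - 1) / q ≤ m := by
        have : n + q - 1 < (m + 1) * q := by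
          have : n ≤ q * m := by omega
          have e : (m + 1) * q = q * m + q := by ring
          omega
        exact Nat.lt_succ_iff.1 ((Nat.div_lt_iff_lt_mul hq).2 this)
      have h2' : (n + q - 1) / q ≤ m' := by
        have : n + q - 1 < (m' + 1) * q := by
          have : n ≤ q * m' := by omega
          have e : (m' + 1) * q = q * m' + q := by ring
          omega
        exact Nat.lt_succ_iff.1 ((Nat.div_lt_iff_lt_mul hq).2 this)
      have h3 : m = m' := by omega
      have h4 : a * z = a * z' := by rw [h3] at hm; omega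
      exact Nat.eq_of_mul_eq_mul_left ha h4
  simpa using h

private theorem exists_class {k : ℕ} (a : Fin k → ℕ) (ha : ∀ i, 0 < a i) (q : ℕ)
    (hq : ∑ i, a i < q) (n : ℕ) : ∃ z, ∀ i, ¬ q ∣ a i * z + n := by
  by_contra hcon
  push Not at hcon
  have hq0 : 0 < q := by omega
  have hsub : range q ⊆ univ.biUnion fun i => {z ∈ range q | q ∣ a i * z + n} := by
    intro z hz
    obtain ⟨i, hi⟩ := hcon z
    rw [mem_biUnion]
    exact ⟨i, mem_univ _, mem_filter.2 ⟨hz, hi⟩⟩
  have h1 := card_le_card hsub
  have h2 : #(univ.biUnion fun i => {z ∈ range q | q ∣ a i * z + n}) ≤ ∑ i, a i :=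
    card_biUnion_le.trans (sum_le_sum fun i _ => card_solutions (a i) q n (ha i) hq0)
  rw [card_range] at h1
  omega

theorem exists_local {k : ℕ} (a : Fin k → ℕ) (ha : ∀ i, 0 < a i) (s : ℕ) (hs : ∑ i, a i < 2 ^ s)
    (W : ℕ) (hW : 0 < W) (n : ℕ) :
    ∃ z : ℕ, z ≤ W ^ s ∧ ∀ p : ℕ, p.Prime → p ∣ W → ∀ i, ¬ p ^ s ∣ a i * z + n := by
  have hex : ∀ p : ℕ, ∃ z, p.Prime → ∀ i, ¬ p ^ s ∣ a i * z + n := by
    intro p
    by_cases hp : p.Prime
    · have hlt : ∑ i, a i < p ^ s := lt_of_lt_of_le hs (Nat.pow_le_pow_left hp.two_le s)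
      obtain ⟨z, hz⟩ := exists_class a ha (p ^ s) hlt n
      exact ⟨z, fun _ => hz⟩
    · exact ⟨0, fun h => absurd h hp⟩
  choose c hc using hex
  have hne : ∀ p ∈ W.primeFactors, (fun p => p ^ s) p ≠ 0 := fun p hp =>
    pow_ne_zero _ (Nat.prime_of_mem_primeFactors hp).ne_zero
  have hpp : Set.Pairwise (W.primeFactors : Set ℕ) (Function.onFun Nat.Coprime fun p => p ^ s) := by
    intro p hp q hq hpq
    exact Nat.Coprime.pow s s ((Nat.coprime_primes (Nat.prime_of_mem_primeFactors hp)
      (Nat.prime_of_mem_primeFactors hq)).2 hpq)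
  refine ⟨(Nat.chineseRemainderOfFinset c (fun p => p ^ s) W.primeFactors hne hpp : ℕ), ?_, ?_⟩
  · have h1 := Nat.chineseRemainderOfFinset_lt_prod c (fun p => p ^ s) (t := W.primeFactors) hne hpp
    refine h1.le.trans ?_
    rw [prod_pow]
    exact Nat.pow_le_pow_left (Nat.le_of_dvd hW (Nat.prod_primeFactors_dvd W)) s
  · intro p hp hpW i hdvd
    have hmem : p ∈ W.primeFactors := Nat.mem_primeFactors.2 ⟨hp, hpW, hW.ne'⟩
    have hmod := (Nat.chineseRemainderOfFinset c (fun p => p ^ s) W.primeFactors hne hpp).2 p hmem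
    have h2 := ((hmod.mul_left (a i)).add_right n).dvd_iff (dvd_refl (p ^ s))
    exact hc p hp i (h2.1 hdvd)

end PoolQ4
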