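import Pool.Agent.Work.MP_70e905_nt.Q4.Clus
import Pool.Agent.Work.MP_70e905_nt.AB.HBset
import Pool.Agent.Work.MP_70e905_nt.AB.LocSol

/-!
# Every `n ≥ 1` is `A p - B q` with bounded `A, B` and primes `p, q ≤ C n`

Let `L, D₁` be from `ClusterPlus K`, `k = (K+1) L`, `a` a Heath-Brown set of size `k` (indexed by
`Fin (K+1) × Fin L` through an equivalence with `Fin k`), `W = primorial D` with `D ≥ D₁` and
`D ≥ a i` for all `i`, `s` with `∑ a i < 2^s`. Given `n` take `z₀` from `exists_local`, and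
`g i = gcd (a i z₀ + n) (W^s)`, `α i = a i W^s / g i`, `β i = (a i z₀ + n) / g i`. For a prime `p ∣ W`:
`v_p(a i z₀ + n) < s ≤ v_p(W^s)`, so `p ∤ β i` and `p ∣ α i` (`p^(v+1) ∣ W^s`), hence
`α i v + β i` is prime to `W` for every `v` (take `v = 0`). A prime dividing `α i` divides `a i` or `W`,
so it divides `W`. `α i β j - α j β i = W^s (a i - a j) n / (g i g j) ≠ 0`. Apply `ClusterPlus` with this
`W`, `A₀ = max (a i) W^s`, `C = A₀ + 1`, to `x = max y (X₀ + 1)` ... where `y ≥ n`: primes `P = α i z + β i`,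
`Q = α j z + β j`, `i ≠ j`, both `> x`, `≤ C' x`; if `a i < a j` (else exchange `i, j`), then with
`d = gcd (a i) (a j) = a j - a i`:
`(a j / d) g i P - (a i / d) g j Q = ((a j)(a i Z + n) - (a i)(a j Z + n)) / d = n`, `Z = W^s z + z₀`.
So `A = (a j / d) g i`, `B = (a i / d) g j`, both `≤ A₀`.
-/

namespace PoolQ4

/-- The part prime to `W`. -/
private theorem coprime_part {m W s : ℕ} (hm : m ≠ 0) (hW : 0 < W)
    (h : ∀ p : ℕ, p.Prime → p ∣ W → ¬ p ^ s ∣ m) : (m / Nat.gcd m (W ^ s)).Coprime W := by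
  refine Nat.Coprime.symm (Nat.coprime_of_dvd fun p hp hpW hpm => ?_)
  have hWs : W ^ s ≠ 0 := pow_ne_zero _ hW.ne'
  have h1 : (m / Nat.gcd m (W ^ s)).factorization p = 0 := by
    rw [Nat.factorization_div (Nat.gcd_dvd_left _ _), Nat.factorization_gcd hm hWs]
    simp only [Finsupp.coe_tsub, Pi.sub_apply, Finsupp.inf_apply]
    have h2 : m.factorization p < s := by
      by_contra hcon
      push Not at hcon
      exact h p hp hpW ((hp.pow_dvd_iff_le_factorization hm).2 hcon)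
    have h3 : s ≤ (W ^ s).factorization p :=
      (hp.pow_dvd_iff_le_factorization hWs).1 (pow_dvd_pow_of_dvd hpW s)
    have h4 : m.factorization p ⊓ (W ^ s).factorization p = m.factorization p :=
      min_eq_left (by omega)
    rw [h4]
    omega
  have h5 : m / Nat.gcd m (W ^ s) ≠ 0 :=
    (Nat.div_pos (Nat.le_of_dvd (Nat.pos_of_ne_zero hm) (Nat.gcd_dvd_left _ _))
      (Nat.gcd_pos_of_pos_left _ (Nat.pos_of_ne_zero hm))).ne'
  have h6 := (hp.dvd_iff_one_le_factorization h5).1 hpm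
  omega

/-- The identity `A p = B q + n`. -/
private theorem ab_identity {a b d u w gi gj P Q Z n : ℕ} (ha : a = d * u) (hb : b = d * w)
    (hw : w = u + 1) (hP : gi * P = a * Z + n) (hQ : gj * Q = b * Z + n) :
    w * gi * P = u * gj * Q + n := by
  rw [mul_assoc, hP, mul_assoc, hQ, ha, hb, hw]
  ring

theorem ABpq (K : ℕ) (HC : ClusterPlus K) :
    ∃ C : ℕ, ∀ n y : ℕ, 1 ≤ n → n ≤ y → ∃ A B p q : ℕ, 1 ≤ A ∧ A ≤ C ∧ 1 ≤ B ∧ B ≤ C ∧
      p.Prime ∧ q.Prime ∧ y < p ∧ p ≤ C * y ∧ y < q ∧ q ≤ C * y ∧ A * p = B * q + n := by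
  obtain ⟨L, D₁, hL, HC⟩ := HC
  obtain ⟨a, ha, hmono, hgcd⟩ := exists_heathBrown ((K + 1) * L)
  set S : ℕ := ∑ i, a i with hS
  have haS : ∀ i, a i ≤ S := fun i => Finset.single_le_sum (fun _ _ => Nat.zero_le _)
    (Finset.mem_univ i)
  set D : ℕ := max D₁ S with hD
  set W : ℕ := primorial D with hWdef
  have hW : 0 < W := primorial_pos D
  have hW1 : primorial D₁ ∣ W := by
    unfold primorial at hWdef ⊢
    rw [hWdef]
    refine Finset.prod_dvd_prod_of_subset _ _ _ (Finset.filter_subset_filter _ ?_)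
    exact Finset.range_subset_range.2 (by omega)
  have hpW : ∀ p : ℕ, p.Prime → p ≤ D → p ∣ W := by
    intro p hp hpD
    rw [hWdef]
    unfold primorial
    exact Finset.dvd_prod_of_mem _ (Finset.mem_filter.2 ⟨Finset.mem_range.2 (by omega), hp⟩)
  set s : ℕ := S with hs
  have hs2 : ∑ i, a i < 2 ^ s := by
    rw [← hS, hs]
    exact Nat.lt_two_pow_self
  set A₀ : ℕ := S * W ^ s with hA₀
  have hWs : 0 < W ^ s := pow_pos hW s
  obtain ⟨X₀, hX₀⟩ := HC W A₀ (A₀ + 1) hW hW1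
  refine ⟨(3 * A₀ + 1) * (X₀ + 1), ?_⟩
  intro n y hn hny
  obtain ⟨z₀, hz₀, hloc⟩ := exists_local a ha s hs2 W hW n
  set e : Fin (K + 1) × Fin L ≃ Fin ((K + 1) * L) := finProdFinEquiv with he
  set m : Fin ((K + 1) * L) → ℕ := fun i => a i * z₀ + n with hm
  set g : Fin ((K + 1) * L) → ℕ := fun i => Nat.gcd (m i) (W ^ s) with hg
  have hm0 : ∀ i, m i ≠ 0 := fun i => by
    have : n ≤ a i * z₀ + n := Nat.le_add_left _ _
    simp only [hm]
    omega
  have hg0 : ∀ i, 0 < g i := fun i => Nat.gcd_pos_of_pos_left _ (Nat.pos_of_ne_zero (hm0 i))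
  have hgm : ∀ i, g i ∣ m i := fun i => Nat.gcd_dvd_left _ _
  have hgW : ∀ i, g i ∣ W ^ s := fun i => Nat.gcd_dvd_right _ _
  set α : Fin ((K + 1) * L) → ℕ := fun i => a i * (W ^ s / g i) with hα
  set β : Fin ((K + 1) * L) → ℕ := fun i => m i / g i with hβ
  have hαg : ∀ i, g i * α i = a i * W ^ s := fun i => by
    simp only [hα]
    rw [mul_left_comm, Nat.mul_div_cancel' (hgW i)]
  have hβg : ∀ i, g i * β i = m i := fun i => Nat.mul_div_cancel' (hgm i)
  have hα1 : ∀ i, 1 ≤ α i := fun i =>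
    Nat.mul_pos (ha i) (Nat.div_pos (Nat.le_of_dvd hWs (hgW i)) (hg0 i))
  have hαA : ∀ i, α i ≤ A₀ := fun i =>
    Nat.mul_le_mul (haS i) (Nat.div_le_self _ _)
  have hβA : ∀ i, β i ≤ A₀ + n := fun i => by
    have h1 : β i ≤ m i := Nat.div_le_self _ _
    have h2 : a i * z₀ ≤ S * W ^ s := Nat.mul_le_mul (haS i) hz₀
    simp only [hm] at h1
    omega
  set x : ℕ := max y X₀ with hx
  have hxX : X₀ ≤ x := le_max_right _ _
  have hxy : y ≤ x := le_max_left _ _
  have hxle : x ≤ (X₀ + 1) * y := by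
    rw [hx]
    refine max_le ?_ ?_
    · nlinarith
    · nlinarith
  have hk2 : ∀ i : Fin (K + 1) × Fin L, ∀ p : ℕ, p.Prime → p ∣ α (e i) → p ∣ W := by
    intro i p hp hdvd
    rcases (hp.dvd_mul).1 hdvd with h | h
    · exact hpW p hp (le_trans (Nat.le_of_dvd (ha _) h) (le_trans (haS _) (le_max_right _ _)))
    · exact hp.dvd_of_dvd_pow (h.trans (Nat.div_dvd_of_dvd (hgW _)))
  have hk3 : ∀ i : Fin (K + 1) × Fin L, β (e i) ≤ (A₀ + 1) * x := by
    intro i
    have h1 := hβA (e i)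
    have h2 : A₀ + n ≤ (A₀ + 1) * x := by nlinarith
    exact h1.trans h2
  have hk4 : ∀ i : Fin (K + 1) × Fin L, (α (e i) * 0 + β (e i)).Coprime W := by
    intro i
    have := coprime_part (hm0 (e i)) hW (s := s) fun p hp hpW => hloc p hp hpW (e i)
    simpa using this
  have hk5 : ∀ i j : Fin (K + 1) × Fin L, i ≠ j → α (e i) * β (e j) ≠ α (e j) * β (e i) := by
    intro i j hij heq
    have hne : e i ≠ e j := fun h => hij (e.injective h)
    have h1 : a (e i) * W ^ s * m (e j) = a (e j) * W ^ s * m (e i) := by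
      rw [← hαg, ← hαg, ← hβg (e j), ← hβg (e i)]
      calc g (e i) * α (e i) * (g (e j) * β (e j)) = g (e i) * g (e j) * (α (e i) * β (e j)) := by
            ring
        _ = g (e i) * g (e j) * (α (e j) * β (e i)) := by rw [heq]
        _ = g (e j) * α (e j) * (g (e i) * β (e i)) := by ring
    have h2 : W ^ s * (a (e i) * n) = W ^ s * (a (e j) * n) := by
      simp only [hm] at h1
      nlinarith
    have h3 := Nat.eq_of_mul_eq_mul_left hWs h2
    have h4 := Nat.eq_of_mul_eq_mul_right (by omega : 0 < n) h3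
    exact hne (hmono.injective h4)
  obtain ⟨z, hz1, hz2, -, i, j, hij, hPi, hPj⟩ := hX₀ x 0 (fun i => α (e i)) (fun i => β (e i)) hxX
    (fun i => ⟨hα1 _, hαA _⟩) hk2 hk3 hk4 hk5
  have hne : e i ≠ e j := fun h => hij (congrArg Prod.fst (e.injective h))
  have main : ∀ i j, i < j → (α i * z + β i).Prime → (α j * z + β j).Prime →
      ∃ A B p q : ℕ, 1 ≤ A ∧ A ≤ A₀ ∧ 1 ≤ B ∧ B ≤ A₀ ∧ p.Prime ∧ q.Prime ∧
        (∃ i, p = α i * z + β i) ∧ (∃ i, q = α i * z + β i) ∧ A * p = B * q + n := by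
    intro i j hij hPi hPj
    have h1 := hgcd i j hij
    set d := Nat.gcd (a i) (a j) with hd
    have hd0 : 0 < d := Nat.gcd_pos_of_pos_left _ (ha i)
    obtain ⟨u, hu⟩ : d ∣ a i := Nat.gcd_dvd_left _ _
    obtain ⟨w, hw⟩ : d ∣ a j := Nat.gcd_dvd_right _ _
    have hwu : w = u + 1 := by
      rw [hu, hw] at h1
      have : d * w = d * (u + 1) := by rw [h1]; ring
      exact Nat.eq_of_mul_eq_mul_left hd0 this
    have hu0 : 0 < u := by
      rcases Nat.eq_zero_or_pos u with h | h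
      · rw [h, mul_zero] at hu
        exact absurd hu (ha i).ne'
      · exact h
    have hgle : ∀ i, g i ≤ W ^ s := fun i => Nat.le_of_dvd hWs (hgW i)
    have hP : ∀ i, g i * (α i * z + β i) = a i * (W ^ s * z + z₀) + n := by
      intro i
      rw [mul_add, ← mul_assoc, hαg, hβg]
      simp only [hm]
      ring
    refine ⟨w * g i, u * g j, _, _, ?_, ?_, ?_, ?_, hPi, hPj, ⟨i, rfl⟩, ⟨j, rfl⟩, ?_⟩
    · exact Nat.mul_pos (by omega) (hg0 i)
    · refine Nat.mul_le_mul ?_ (hgle i)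
      refine le_trans ?_ (haS j)
      rw [hw]
      exact Nat.le_mul_of_pos_left _ hd0
    · exact Nat.mul_pos hu0 (hg0 j)
    · refine Nat.mul_le_mul ?_ (hgle j)
      refine le_trans ?_ (haS i)
      rw [hu]
      exact Nat.le_mul_of_pos_left _ hd0
    · exact ab_identity hu hw hwu (hP i) (hP j)
  have main2 : ∃ A B p q : ℕ, 1 ≤ A ∧ A ≤ A₀ ∧ 1 ≤ B ∧ B ≤ A₀ ∧ p.Prime ∧ q.Prime ∧
        (∃ i, p = α i * z + β i) ∧ (∃ i, q = α i * z + β i) ∧ A * p = B * q + n := by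
    rcases lt_or_gt_of_ne hne with h | h
    · exact main _ _ h hPi hPj
    · exact main _ _ h hPj hPi
  obtain ⟨A, B, p, q, hA1, hA2, hB1, hB2, hp, hq, ⟨i', hp'⟩, ⟨j', hq'⟩, hAB⟩ := main2
  have hlow : ∀ i, y < α i * z + β i := fun i => by
    have h1 : 1 * z ≤ α i * z := Nat.mul_le_mul_right _ (hα1 i)
    omega
  have hup : ∀ i, α i * z + β i ≤ (3 * A₀ + 1) * (X₀ + 1) * y := fun i => by
    have h1 : α i * z ≤ A₀ * (2 * x) := Nat.mul_le_mul (hαA i) hz2
    have h2 := hβA i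
    have h3 : A₀ + n ≤ (A₀ + 1) * x := by nlinarith
    calc α i * z + β i ≤ A₀ * (2 * x) + (A₀ + 1) * x := by omega
      _ = (3 * A₀ + 1) * x := by ring
      _ ≤ (3 * A₀ + 1) * ((X₀ + 1) * y) := Nat.mul_le_mul_left _ hxle
      _ = (3 * A₀ + 1) * (X₀ + 1) * y := by ring
  have hC : A₀ ≤ (3 * A₀ + 1) * (X₀ + 1) := by nlinarith
  refine ⟨A, B, p, q, hA1, hA2.trans hC, hB1, hB2.trans hC, hp, hq, ?_, ?_, ?_, ?_, hAB⟩
  · rw [hp']; exact hlow _
  · rw [hp']; exact hup _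
  · rw [hq']; exact hlow _
  · rw [hq']; exact hup _

end PoolQ4
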